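import Pool.Agent.U337.EM.Stm
import Pool.Agent.H67.OL.DOM
import Pool.Agent.H67.OL.SORT
import Pool.Agent.H67.OL.PBW2

/-!
# Project EM, package GR: growth of enveloping algebras
-/

set_option autoImplicit false

namespace Pool.Agent.U574.EM

open Pool.Agent.U337.EM H67OL H67OL.DOMaux

section V

variable {F : Type} [Field F] {A : Type} [Ring A] [Algebra F A] {J : Type}

/-- the span of the products of at most `N` elements `g j` -/
def V (F : Type) [Field F] {A : Type} [Ring A] [Algebra F A] {J : Type} (g : J → A) (N : ℕ) :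
    Submodule F A :=
  Submodule.span F {z | ∃ l : List J, l.length ≤ N ∧ z = (l.map g).prod}

theorem V_mono (g : J → A) {M N : ℕ} (h : M ≤ N) : V F g M ≤ V F g N :=
  Submodule.span_mono (by rintro z ⟨l, hl, rfl⟩; exact ⟨l, hl.trans h, rfl⟩)

theorem V_mul (g : J → A) {M N : ℕ} {a b : A} (ha : a ∈ V F g M) (hb : b ∈ V F g N) :
    a * b ∈ V F g (M + N) := by
  have h : V F g M * V F g N ≤ V F g (M + N) := by
    unfold V
    rw [Submodule.span_mul_span]
    refine Submodule.span_mono ?_
    rintro z ⟨x, ⟨l, hl, rfl⟩, y, ⟨l', hl', rfl⟩, rfl⟩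
    exact ⟨l ++ l', by rw [List.length_append]; omega, by simp⟩
  exact h (Submodule.mul_mem_mul ha hb)

theorem V_prod (g : J → A) (C : ℕ) (l : List A) (hl : ∀ a ∈ l, a ∈ V F g C) :
    l.prod ∈ V F g (C * l.length) := by
  induction l with
  | nil => exact Submodule.subset_span ⟨[], by simp, by simp⟩
  | cons a l ih =>
    rw [List.prod_cons, List.length_cons]
    have h1 := V_mul g (hl a (by simp)) (ih fun b hb => hl b (by simp [hb]))
    have e : C * (l.length + 1) = C + C * l.length := by ring
    rw [e]
    exact h1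

theorem V_ex {L : Type} [LieRing L] [LieAlgebra F L] (b : Module.Basis J F L)
    (u : UniversalEnvelopingAlgebra F L) :
    ∃ N, u ∈ V F (fun j => UniversalEnvelopingAlgebra.ι F (b j)) N := by
  set g : J → UniversalEnvelopingAlgebra F L := fun j => UniversalEnvelopingAlgebra.ι F (b j)
    with hg
  have h4 : u ∈ Algebra.adjoin F (Set.range g) := by
    have := adjoin_top b
    change Algebra.adjoin F (Set.range g) = ⊤ at this
    rw [this]
    exact Algebra.mem_top
  rw [← Subalgebra.mem_toSubmodule, Algebra.adjoin_eq_span] at h4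
  induction h4 using Submodule.span_induction with
  | mem z hz =>
    obtain ⟨l, rfl⟩ := mem_closure_range g hz
    exact ⟨l.length, Submodule.subset_span ⟨l, le_rfl, rfl⟩⟩
  | zero => exact ⟨0, Submodule.zero_mem _⟩
  | add x y _ _ hx hy =>
    obtain ⟨M, hM⟩ := hx
    obtain ⟨N, hN⟩ := hy
    exact ⟨max M N, Submodule.add_mem _ (V_mono g (le_max_left _ _) hM)
      (V_mono g (le_max_right _ _) hN)⟩
  | smul a x _ hx =>
    obtain ⟨M, hM⟩ := hx
    exact ⟨M, Submodule.smul_mem _ _ hM⟩

theorem V_le {L : Type} [LieRing L] [LieAlgebra F L] {m : ℕ} (b : Module.Basis (Fin m) F L)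
    (N : ℕ) : V F (fun j => UniversalEnvelopingAlgebra.ι F (b j)) N ≤
      Submodule.span F (Set.range fun c : Fin m → Fin (N + 1) =>
        ((lst (Finsupp.equivFunOnFinite.symm fun j => (c j : ℕ))).map
          (fun j => UniversalEnvelopingAlgebra.ι F (b j))).prod) := by
  set g : Fin m → UniversalEnvelopingAlgebra F L := fun j => UniversalEnvelopingAlgebra.ι F (b j)
    with hg
  have hspan : ∀ x : L, UniversalEnvelopingAlgebra.ι F x ∈ Submodule.span F (Set.range g) := by
    intro x
    rw [← b.linearCombination_repr x, Finsupp.linearCombination_apply, Finsupp.sum, map_sum]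
    refine Submodule.sum_mem _ fun i _ => ?_
    rw [map_smul]
    exact Submodule.smul_mem _ _ (Submodule.subset_span ⟨i, rfl⟩)
  have hcomm : ∀ β γ, g β * g γ - g γ * g β ∈ Submodule.span F
      {z | ∃ δ, (fun _ : Fin m => 1) δ ≤ (fun _ : Fin m => 1) β + (fun _ : Fin m => 1) γ ∧
        z = g δ} := by
    intro β γ
    have e : g β * g γ - g γ * g β = UniversalEnvelopingAlgebra.ι F ⁅b β, b γ⁆ := by
      let _ : LieRing (UniversalEnvelopingAlgebra F L) := LieRing.ofAssociativeRing
      rw [LieHom.map_lie, LieRing.of_associative_ring_bracket]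
    rw [e]
    refine Submodule.span_mono ?_ (hspan _)
    rintro _ ⟨i, rfl⟩
    exact ⟨i, by simp, rfl⟩
  have hwl : ∀ l : List (Fin m), wl (fun _ => 1) l = l.length := by
    intro l
    simp [wl]
  unfold V
  rw [Submodule.span_le]
  rintro z ⟨l, hl, rfl⟩
  have h3 := t_SORT F (UniversalEnvelopingAlgebra F L) (Fin m) g (fun _ => 1) hcomm l
  refine Submodule.span_mono ?_ h3
  rintro z ⟨l', hs, hl', rfl⟩
  rw [hwl, hwl] at hl'
  refine ⟨fun j => ⟨l'.count j, by
    have := List.count_le_length (a := j) (l := l')
    omega⟩, ?_⟩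
  simp only
  congr 2
  have h4 := lst_of_sorted (inst := inferInstance) l' hs
  rw [← h4]
  congr 1
  ext j
  rw [h4, Multiset.toFinsupp_apply]
  simp

end V

theorem t_GR : S_GR := by
  intro F _ L H _ _ _ _ _ ⟨φ⟩ k v hv
  classical
  set m := Module.finrank F L with hm
  let c : Module.Basis (Fin m) F L := Module.finBasis F L
  set gL : Fin m → UniversalEnvelopingAlgebra F L := fun j =>
    UniversalEnvelopingAlgebra.ι F (c j) with hgL
  have hC : ∀ i : Fin k, ∃ N, φ.symm (UniversalEnvelopingAlgebra.ι F (v i)) ∈ V F gL N :=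
    fun i => V_ex c _
  choose Cf hCf using hC
  obtain ⟨C, hC⟩ : ∃ C, ∀ i, Cf i ≤ C :=
    ⟨Finset.univ.sup Cf, fun i => Finset.le_sup (Finset.mem_univ i)⟩
  have hvC : ∀ i, φ.symm (UniversalEnvelopingAlgebra.ι F (v i)) ∈ V F gL C := fun i =>
    V_mono gL (hC i) (hCf i)
  -- a basis of `H`
  obtain ⟨I, b, e, hbe⟩ : ∃ (I : Type) (b : Module.Basis I F H) (e : Fin k → I),
      ∀ i, b (e i) = v i := by
    have hs : LinearIndepOn F id (Set.range v) := hv.linearIndepOn_id
    refine ⟨_, Module.Basis.extend hs, fun i => ⟨v i, hs.subset_extend _ ⟨i, rfl⟩⟩, fun i => ?_⟩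
    rw [Module.Basis.extend_apply_self]
  have hei : Function.Injective e := by
    intro i j hij
    apply hv.injective
    rw [← hbe, ← hbe, hij]
  let _ : LinearOrder I := IsWellOrder.linearOrder WellOrderingRel
  obtain ⟨ρ, hlie, hρ⟩ := t_PBW2 F H I b
  obtain ⟨Φ, hΦ'⟩ : ∃ Φ : UniversalEnvelopingAlgebra F H →ₐ[F]
      Module.End F (MvPolynomial I F), ∀ x, Φ (UniversalEnvelopingAlgebra.ι F x) = ρ x := by
    let _ : LieRing (Module.End F (MvPolynomial I F)) := LieRing.ofAssociativeRing
    let ρ' : H →ₗ⁅F⁆ Module.End F (MvPolynomial I F) :=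
      { ρ with
        map_lie' := by
          intro x y
          rw [LieRing.of_associative_ring_bracket]
          exact hlie x y }
    exact ⟨UniversalEnvelopingAlgebra.lift F ρ', fun x =>
      UniversalEnvelopingAlgebra.lift_ι_apply F ρ' x⟩
  set g : I → UniversalEnvelopingAlgebra F H := fun i => UniversalEnvelopingAlgebra.ι F (b i)
    with hg
  have hΦ : ∀ i, Φ (g i) = ρ (b i) := fun i => hΦ' (b i)
  have hinj : Function.Injective (Psi (K := F) g) := by
    rw [injective_iff_map_eq_zero]
    intro σ hσ
    by_contra hne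
    have h1 := act_ne b ρ g Φ hΦ hρ hne (one_ne_zero (α := MvPolynomial I F))
    rw [hσ, map_zero] at h1
    exact h1 rfl
  -- the exponents
  have main : ∀ n : ℕ, (n + 1) ^ k ≤ (C * (k * n) + 1) ^ m := by
    intro n
    set s : (Fin k → Fin (n + 1)) → (I →₀ ℕ) := fun a =>
      ∑ i, Finsupp.single (e i) (a i : ℕ) with hs
    have hsv : ∀ a j, s a (e j) = a j := by
      intro a j
      simp only [hs]
      rw [Finsupp.finsetSum_apply, Finset.sum_eq_single j]
      · simp
      · intro i _ hij
        rw [Finsupp.single_apply, if_neg]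
        exact fun h => hij (hei h)
      · intro h
        exact absurd (Finset.mem_univ j) h
    have hsi : Function.Injective s := by
      intro a a' haa
      funext j
      apply Fin.ext
      rw [← hsv a j, ← hsv a' j, haa]
    have hsl : ∀ a, (lst (s a)).length ≤ k * n := by
      intro a
      rw [lst_length]
      simp only [hs]
      rw [← Finsupp.sum_finsetSum_index (fun _ => rfl) (fun _ _ _ => rfl)]
      calc ∑ i, (Finsupp.single (e i) (a i : ℕ)).sum (fun _ x => x)
          ≤ ∑ _i : Fin k, n := by
            refine Finset.sum_le_sum fun i _ => ?_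
            rw [Finsupp.sum_single_index rfl]
            omega
        _ = k * n := by simp
    have hsm : ∀ a, ∀ x ∈ lst (s a), ∃ i, x = e i := by
      intro a x hx
      unfold lst at hx
      rw [Multiset.mem_sort, Finsupp.mem_toMultiset] at hx
      by_contra hne
      push Not at hne
      rw [Finsupp.mem_support_iff] at hx
      apply hx
      simp only [hs]
      rw [Finsupp.finsetSum_apply]
      refine Finset.sum_eq_zero fun i _ => ?_
      rw [Finsupp.single_apply, if_neg]
      exact fun h => hne i h.symm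
    set w : (Fin k → Fin (n + 1)) → UniversalEnvelopingAlgebra F L := fun a =>
      φ.symm (Psi (K := F) g (MvPolynomial.monomial (s a) 1)) with hw
    have hwi : LinearIndependent F w := by
      have h1 : LinearIndependent F fun a => (MvPolynomial.basisMonomials I F) (s a) :=
        (MvPolynomial.basisMonomials I F).linearIndependent.comp s hsi
      have h2 := h1.map' (Psi (K := F) g) (LinearMap.ker_eq_bot.2 hinj)
      have h3 := h2.map' (φ.symm.toLinearMap : UniversalEnvelopingAlgebra F H →ₗ[F]
        UniversalEnvelopingAlgebra F L) (LinearMap.ker_eq_bot.2 φ.symm.injective)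
      have e1 : w = (φ.symm.toLinearMap : UniversalEnvelopingAlgebra F H →ₗ[F]
          UniversalEnvelopingAlgebra F L) ∘ (Psi (K := F) g) ∘
            fun a => (MvPolynomial.basisMonomials I F) (s a) := by
        funext a
        simp only [hw, Function.comp_apply, MvPolynomial.coe_basisMonomials]
        rfl
      rw [e1]
      exact h3
    have hwm : ∀ a, w a ∈ V F gL (C * (k * n)) := by
      intro a
      have e1 : w a = (((lst (s a)).map g).map φ.symm).prod := by
        simp only [hw]
        rw [Psi_monomial, one_smul, map_list_prod]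
      rw [e1]
      have h1 := V_prod gL C (((lst (s a)).map g).map φ.symm) (by
        intro y hy
        rw [List.map_map, List.mem_map] at hy
        obtain ⟨x, hx, rfl⟩ := hy
        obtain ⟨i, rfl⟩ := hsm a x hx
        simp only [Function.comp_apply, hg]
        rw [hbe]
        exact hvC i)
      rw [List.length_map, List.length_map] at h1
      exact V_mono gL (Nat.mul_le_mul_left C (hsl a)) h1
    set W := Submodule.span F (Set.range fun c' : Fin m → Fin (C * (k * n) + 1) =>
        ((lst (Finsupp.equivFunOnFinite.symm fun j => (c' j : ℕ))).map gL).prod) with hW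
    have hwW : ∀ a, w a ∈ W := fun a => V_le c (C * (k * n)) (hwm a)
    have : Module.Finite F W := FiniteDimensional.span_of_finite F (Set.finite_range _)
    have hwi' : LinearIndependent F (fun a => (⟨w a, hwW a⟩ : W)) := by
      apply LinearIndependent.of_comp W.subtype
      exact hwi
    have h1 := hwi'.fintype_card_le_finrank
    have h2 : Module.finrank F W ≤ Fintype.card (Fin m → Fin (C * (k * n) + 1)) :=
      finrank_range_le_card _
    have h3 := h1.trans h2
    simpa using h3
  by_contra hcon
  push Not at hcon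
  have h1 := main ((C * k + 1) ^ m)
  set n := (C * k + 1) ^ m with hn
  have h2 : (n + 1) ^ (m + 1) ≤ (n + 1) ^ k := Nat.pow_le_pow_right (by omega) hcon
  have h3 : C * (k * n) + 1 ≤ (C * k + 1) * (n + 1) := by nlinarith [Nat.zero_le (C * k), Nat.zero_le n]
  have h4 : (C * (k * n) + 1) ^ m ≤ (C * k + 1) ^ m * (n + 1) ^ m := by
    rw [← mul_pow]
    exact Nat.pow_le_pow_left h3 m
  have h5 : (n + 1) ^ m * (n + 1) ≤ (n + 1) ^ m * n := by
    calc (n + 1) ^ m * (n + 1) = (n + 1) ^ (m + 1) := (pow_succ _ _).symm
      _ ≤ (C * k + 1) ^ m * (n + 1) ^ m := h2.trans (h1.trans h4)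
      _ = (n + 1) ^ m * n := by rw [← hn, mul_comm]
  have h6 : n + 1 ≤ n := Nat.le_of_mul_le_mul_left h5 (by positivity)
  omega

end Pool.Agent.U574.EM
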